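import Pool.Agent.XA.C1
import Pool.Agent.XA.V0
import Pool.Agent.XA.V1

/-!
# [CRA] Bodies with analytic boundary: the chord lengths are analytic functions of the level
-/

set_option autoImplicit false
open MeasureTheory Set Filter Topology
open Pool.Agent.XA

namespace Pool.Agent.CRA

/-- the boundary of `K` is real analytic: near each of its points `K` is `{g ≤ 0}` for an analytic function `g` with
nonzero derivative -/
def AB (K : Set (ℝ × ℝ)) : Prop :=
  ∀ b ∈ frontier K, ∃ g : ℝ × ℝ → ℝ, AnalyticAt ℝ g b ∧ fderiv ℝ g b ≠ 0 ∧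
    ∀ᶠ x in 𝓝 b, (x ∈ K ↔ g x ≤ 0)

/-- `pt θ` as a continuous linear map -/
noncomputable def ptL (θ : ℝ) : ℝ × ℝ →L[ℝ] ℝ × ℝ :=
  LinearMap.toContinuousLinearMap
    { toFun := fun p => pt θ p.1 p.2
      map_add' := fun p q => by
        simp only [pt, Prod.mk_add_mk, Prod.mk.injEq, Prod.fst_add, Prod.snd_add]
        constructor <;> ring
      map_smul' := fun r p => by
        simp only [pt, Prod.smul_mk, Prod.mk.injEq, Prod.smul_fst, Prod.smul_snd, smul_eq_mul,
          RingHom.id_apply]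
        constructor <;> ring }

theorem ptL_apply (θ : ℝ) (p : ℝ × ℝ) : ptL θ p = pt θ p.1 p.2 := rfl

/-- the right end of the chord -/
noncomputable def re (K : Set (ℝ × ℝ)) (θ c : ℝ) : ℝ := sSup {t : ℝ | pt θ c t ∈ K}

theorem re_eq {K : Set (ℝ × ℝ)} {θ c a b : ℝ} (hab : a < b)
    (h : {t : ℝ | pt θ c t ∈ K} = Icc a b) : re K θ c = b := by
  rw [re, h, csSup_Icc hab.le]

/-- near a boundary point the boundary points are zeros of `g` -/
theorem zero_near {K : Set (ℝ × ℝ)} (hK : IsClosed K) {b : ℝ × ℝ} {g : ℝ × ℝ → ℝ}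
    (hg : AnalyticAt ℝ g b) (hloc : ∀ᶠ x in 𝓝 b, (x ∈ K ↔ g x ≤ 0)) :
    ∀ᶠ x in 𝓝 b, x ∈ frontier K → g x = 0 := by
  filter_upwards [hloc.eventually_nhds, hg.eventually_analyticAt] with x h1 h2 hx
  have h3 : x ∈ K := hK.frontier_subset hx
  have h4 : g x ≤ 0 := h1.self_of_nhds.1 h3
  refine le_antisymm h4 (not_lt.1 fun h5 => ?_)
  have h6 : ∀ᶠ y in 𝓝 x, g y < 0 := h2.continuousAt.eventually_lt continuousAt_const h5
  have h7 : K ∈ 𝓝 x := by
    filter_upwards [h1, h6] with y k1 k2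
    exact k1.2 k2.le
  rw [hK.frontier_eq] at hx
  exact hx.2 (mem_interior_iff_mem_nhds.2 h7)

/-- the derivative of `g` at a boundary point is an outer normal -/
theorem deriv_le {K : Set (ℝ × ℝ)} (hK : Convex ℝ K) {b : ℝ × ℝ} {g : ℝ × ℝ → ℝ}
    (hg : DifferentiableAt ℝ g b) (h0 : g b = 0) (hb : b ∈ K)
    (hloc : ∀ᶠ x in 𝓝 b, (x ∈ K ↔ g x ≤ 0)) {x : ℝ × ℝ} (hx : x ∈ K) :
    fderiv ℝ g b (x - b) ≤ 0 := by
  have hl : HasDerivAt (fun s : ℝ => b + s • (x - b)) (x - b) 0 := by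
    simpa using ((hasDerivAt_id (0 : ℝ)).smul_const (x - b)).const_add b
  have hg' : HasFDerivAt g (fderiv ℝ g b) (b + (0 : ℝ) • (x - b)) := by
    rw [zero_smul, add_zero]
    exact hg.hasFDerivAt
  have hd : HasDerivAt (fun s : ℝ => g (b + s • (x - b))) (fderiv ℝ g b (x - b)) 0 :=
    hg'.comp_hasDerivAt (0 : ℝ) hl
  have ht := hd.tendsto_slope_zero_right
  refine le_of_tendsto ht ?_
  have hc : Tendsto (fun s : ℝ => b + s • (x - b)) (𝓝 0) (𝓝 b) := by
    have := hl.continuousAt.tendsto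
    rwa [zero_smul, add_zero] at this
  have h1 : ∀ᶠ s in 𝓝[>] (0 : ℝ), (b + s • (x - b) ∈ K ↔ g (b + s • (x - b)) ≤ 0) :=
    (hc.eventually hloc).filter_mono nhdsWithin_le_nhds
  have h2 : ∀ᶠ s in 𝓝[>] (0 : ℝ), s < 1 :=
    (eventually_lt_nhds (by norm_num : (0 : ℝ) < 1)).filter_mono nhdsWithin_le_nhds
  filter_upwards [h1, h2, self_mem_nhdsWithin] with s k1 k2 k3
  have k3' : (0 : ℝ) < s := k3
  have hm : b + s • (x - b) ∈ K := by
    have h3 := hK hb hx (by linarith : 0 ≤ 1 - s) k3'.le (by ring)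
    have e : (1 - s) • b + s • x = b + s • (x - b) := by
      rw [sub_smul, one_smul, smul_sub]
      abel
    rwa [e] at h3
  have h4 := k1.1 hm
  simp only [zero_add, zero_smul, add_zero, h0, sub_zero, smul_eq_mul]
  exact mul_nonpos_of_nonneg_of_nonpos (inv_nonneg.2 k3'.le) h4

/-- the right end of the chord is continuous -/
theorem re_tendsto {K : Set (ℝ × ℝ)} (hK : IsBody K) {θ c0 : ℝ} (h1 : -hs K (θ + Real.pi) < c0)
    (h2 : c0 < hs K θ) : Tendsto (re K θ) (𝓝 c0) (𝓝 (re K θ c0)) := by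
  obtain ⟨a, b, hab, hS, hI⟩ := chord_single hK h1 h2
  rw [re_eq hab hS, tendsto_order]
  have hcont : ∀ t : ℝ, Continuous (fun c : ℝ => pt θ c t) := fun t => by
    unfold pt
    fun_prop
  have hrange : ∀ᶠ c in 𝓝 c0, -hs K (θ + Real.pi) < c ∧ c < hs K θ :=
    (eventually_gt_nhds h1).and (eventually_lt_nhds h2)
  -- a point of the chords
  have hm : ∀ t ∈ Ioo a b, ∀ᶠ c in 𝓝 c0, pt θ c t ∈ K := fun t ht => by
    have h3 : pt θ c0 t ∈ interior K := by
      have : t ∈ {t : ℝ | pt θ c0 t ∈ interior K} := by rw [hI]; exact ht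
      exact this
    have h4 : ∀ᶠ c in 𝓝 c0, pt θ c t ∈ interior K :=
      (hcont t).continuousAt.eventually (isOpen_interior.mem_nhds h3)
    exact h4.mono fun c hc => interior_subset hc
  refine ⟨fun x hx => ?_, fun x hx => ?_⟩
  · set t := (max x a + b) / 2 with ht
    have hx2 : max x a < b := max_lt hx hab
    have h3 := le_max_left x a
    have h4 := le_max_right x a
    filter_upwards [hm t ⟨by linarith, by linarith⟩, hrange] with c k1 k2
    obtain ⟨a', b', hab', hS', -⟩ := chord_single hK k2.1 k2.2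
    rw [re_eq hab' hS']
    have h5 : t ∈ Icc a' b' := by
      rw [← hS']
      exact k1
    linarith [h5.2]
  · have h3 : ∀ᶠ c in 𝓝 c0, pt θ c x ∉ K := by
      have h4 : pt θ c0 x ∈ Kᶜ := by
        intro h5
        have : x ∈ Icc a b := by
          rw [← hS]
          exact h5
        linarith [this.2]
      exact (hcont x).continuousAt.eventually (hK.compact.isClosed.isOpen_compl.mem_nhds h4)
    filter_upwards [hm ((a + b) / 2) ⟨by linarith, by linarith⟩, h3, hrange] with c k1 k2 k3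
    obtain ⟨a', b', hab', hS', -⟩ := chord_single hK k3.1 k3.2
    rw [re_eq hab' hS']
    have h5 : (a + b) / 2 ∈ Icc a' b' := by
      rw [← hS']
      exact k1
    by_contra hc
    push Not at hc
    apply k2
    have h6 : x ∈ Icc a' b' := ⟨by linarith [h5.1], hc⟩
    rw [← hS'] at h6
    exact h6

/-- **The right end of the chord is an analytic function of the level.** -/
theorem re_analytic {K : Set (ℝ × ℝ)} (hK : IsBody K) (aK : AB K) {θ c0 : ℝ}
    (h1 : -hs K (θ + Real.pi) < c0) (h2 : c0 < hs K θ) : AnalyticAt ℝ (re K θ) c0 := by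
  obtain ⟨a, b, hab, hS, hI⟩ := chord_single hK h1 h2
  have hre := re_eq hab hS
  set b0 := pt θ c0 b with hb0
  have mS : ∀ {t : ℝ}, t ∈ Icc a b → pt θ c0 t ∈ K := fun {t} ht => by
    rw [← hS] at ht
    exact ht
  have mI : ∀ {t : ℝ}, t ∈ Ioo a b → pt θ c0 t ∈ interior K := fun {t} ht => by
    rw [← hI] at ht
    exact ht
  have hclosed := hK.compact.isClosed
  have hbK : b0 ∈ K := mS ⟨hab.le, le_refl _⟩
  have hbF : b0 ∈ frontier K := by
    rw [hclosed.frontier_eq]
    refine ⟨hbK, fun h => ?_⟩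
    have : b ∈ Ioo a b := by
      rw [← hI]
      exact h
    exact lt_irrefl _ this.2
  obtain ⟨g, hg, hg', hloc⟩ := aK b0 hbF
  have h0 : g b0 = 0 := (zero_near hclosed hg hloc).self_of_nhds hbF
  set D := fderiv ℝ g b0 with hD
  have hDle : ∀ x ∈ K, D (x - b0) ≤ 0 := fun x hx =>
    deriv_le hK.convex hg.differentiableAt h0 hbK hloc hx
  set u : ℝ × ℝ := pt θ 0 1 with hu
  have hpt : ∀ t : ℝ, pt θ c0 t - b0 = (t - b) • u := fun t => by
    rw [hb0, hu]
    ext
    · simp only [pt, Prod.fst_sub, Prod.smul_fst, smul_eq_mul]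
      ring
    · simp only [pt, Prod.snd_sub, Prod.smul_snd, smul_eq_mul]
      ring
  have hDu : 0 < D u := by
    have h3 := hDle _ (mS (t := a) ⟨le_refl _, hab.le⟩)
    rw [hpt, map_smul, smul_eq_mul] at h3
    have h4 : 0 ≤ D u := by
      by_contra hc
      push Not at hc
      have := mul_pos_of_neg_of_neg (by linarith : a - b < 0) hc
      linarith
    refine lt_of_le_of_ne h4 fun h5 => hg' ?_
    have hm := mI (t := (a + b) / 2) ⟨by linarith, by linarith⟩
    have hm0 : D (pt θ c0 ((a + b) / 2) - b0) = 0 := by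
      rw [hpt, map_smul, ← h5, smul_zero]
    have key : ∀ w : ℝ × ℝ, D w ≤ 0 := by
      intro w
      have hc : ContinuousAt (fun r : ℝ => pt θ c0 ((a + b) / 2) + r • w) 0 := by fun_prop
      have h6 : ∀ᶠ r in 𝓝 (0 : ℝ), pt θ c0 ((a + b) / 2) + r • w ∈ interior K := by
        refine hc.eventually (isOpen_interior.mem_nhds ?_)
        show pt θ c0 ((a + b) / 2) + (0 : ℝ) • w ∈ interior K
        rw [zero_smul, add_zero]
        exact hm
      have h7 : ∀ᶠ r in 𝓝[>] (0 : ℝ), pt θ c0 ((a + b) / 2) + r • w ∈ interior K :=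
        h6.filter_mono nhdsWithin_le_nhds
      obtain ⟨r, hr, hr0⟩ := (h7.and self_mem_nhdsWithin).exists
      have hr0' : (0 : ℝ) < r := hr0
      have h8 := hDle _ (interior_subset hr)
      have e : pt θ c0 ((a + b) / 2) + r • w - b0 = (pt θ c0 ((a + b) / 2) - b0) + r • w := by abel
      rw [e, map_add, hm0, zero_add, map_smul, smul_eq_mul] at h8
      by_contra hc2
      push Not at hc2
      have := mul_pos hr0' hc2
      linarith
    refine ContinuousLinearMap.ext fun w => le_antisymm (key w) ?_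
    have h6 := key (-w)
    rw [map_neg] at h6
    show 0 ≤ D w
    linarith
  -- the inverse function theorem
  set F : ℝ × ℝ → ℝ := fun p => g (ptL θ p) with hF
  have hFa : AnalyticAt ℝ F (c0, b) := by
    have h3 : AnalyticAt ℝ g (ptL θ (c0, b)) := hg
    exact AnalyticAt.fun_comp h3 ((ptL θ).analyticAt (c0, b))
  set Φ : ℝ × ℝ → ℝ × ℝ := fun p => (p.1, F p) with hΦ
  have hΦa : AnalyticAt ℝ Φ (c0, b) := analyticAt_fst.prod hFa
  have hFd : HasFDerivAt F (D.comp (ptL θ)) (c0, b) := by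
    have h3 : HasFDerivAt g D (ptL θ (c0, b)) := hg.differentiableAt.hasFDerivAt
    exact h3.comp (c0, b) (ptL θ).hasFDerivAt
  set α := D (pt θ 1 0) with hα
  have hcomb : ∀ p : ℝ × ℝ, D (ptL θ p) = α * p.1 + D u * p.2 := by
    intro p
    have e : ptL θ p = p.1 • pt θ 1 0 + p.2 • u := by
      rw [ptL_apply, hu]
      ext
      · simp only [pt, Prod.fst_add, Prod.smul_fst, smul_eq_mul]
        ring
      · simp only [pt, Prod.snd_add, Prod.smul_snd, smul_eq_mul]
        ring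
    rw [e, map_add, map_smul, map_smul, smul_eq_mul, smul_eq_mul]
    ring
  let E : (ℝ × ℝ) ≃L[ℝ] (ℝ × ℝ) := ContinuousLinearEquiv.equivOfInverse
    ((ContinuousLinearMap.fst ℝ ℝ ℝ).prod (D.comp (ptL θ)))
    ((ContinuousLinearMap.fst ℝ ℝ ℝ).prod
      ((D u)⁻¹ • (ContinuousLinearMap.snd ℝ ℝ ℝ - α • ContinuousLinearMap.fst ℝ ℝ ℝ)))
    (fun p => by
      ext
      · rfl
      · show (D u)⁻¹ * (D (ptL θ p) - α * p.1) = p.2
        rw [hcomb]
        field_simp
        ring)
    (fun p => by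
      ext
      · rfl
      · show D (ptL θ (p.1, (D u)⁻¹ * (p.2 - α * p.1))) = p.2
        rw [hcomb]
        field_simp
        ring)
  have hΦd : HasFDerivAt Φ (E : ℝ × ℝ →L[ℝ] ℝ × ℝ) (c0, b) := hasFDerivAt_fst.prodMk hFd
  have hst : HasStrictFDerivAt Φ (E : ℝ × ℝ →L[ℝ] ℝ × ℝ) (c0, b) := by
    have := hΦa.hasStrictFDerivAt
    rwa [hΦd.fderiv] at this
  set H := hst.toOpenPartialHomeomorph Φ with hH
  have hHc : (H : ℝ × ℝ → ℝ × ℝ) = Φ := hst.toOpenPartialHomeomorph_coe
  have hsrc : (c0, b) ∈ H.source := hst.mem_toOpenPartialHomeomorph_source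
  have hsymm : AnalyticAt ℝ H.symm (H (c0, b)) :=
    H.analyticAt_symm' (i := E) hsrc (by rw [hHc]; exact hΦa) (by rw [hHc]; exact hΦd.fderiv)
  have hval : H (c0, b) = (c0, 0) := by
    rw [hHc]
    show (c0, g (ptL θ (c0, b))) = (c0, 0)
    rw [ptL_apply]
    show (c0, g b0) = (c0, 0)
    rw [h0]
  rw [hval] at hsymm
  have hτ : AnalyticAt ℝ (fun c : ℝ => (H.symm (c, (0 : ℝ))).2) c0 := by
    have h3 : AnalyticAt ℝ (fun c : ℝ => (c, (0 : ℝ))) c0 := analyticAt_id.prod analyticAt_const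
    have h4 : AnalyticAt ℝ (fun c : ℝ => H.symm (c, (0 : ℝ))) c0 :=
      AnalyticAt.fun_comp (f := fun c : ℝ => (c, (0 : ℝ))) hsymm h3
    exact AnalyticAt.fun_comp analyticAt_snd h4
  refine hτ.congr ?_
  -- identification
  have hlim : Tendsto (fun c : ℝ => (c, re K θ c)) (𝓝 c0) (𝓝 (c0, b)) := by
    have h3 := re_tendsto hK h1 h2
    rw [hre] at h3
    exact tendsto_id.prodMk_nhds h3
  have hlim2 : Tendsto (fun c : ℝ => pt θ c (re K θ c)) (𝓝 c0) (𝓝 b0) :=
    ((ptL θ).continuous.tendsto (c0, b)).comp hlim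
  filter_upwards [hlim2.eventually (zero_near hclosed hg hloc),
    hlim.eventually (H.open_source.mem_nhds hsrc), eventually_gt_nhds h1, eventually_lt_nhds h2]
    with c k1 k2 k3 k4
  obtain ⟨a', b', hab', hS', hI'⟩ := chord_single hK k3 k4
  have hre' := re_eq hab' hS'
  have hfr : pt θ c (re K θ c) ∈ frontier K := by
    rw [hclosed.frontier_eq, hre']
    refine ⟨?_, fun h => ?_⟩
    · have : b' ∈ {t : ℝ | pt θ c t ∈ K} := by
        rw [hS']
        exact ⟨hab'.le, le_refl _⟩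
      exact this
    · have : b' ∈ Ioo a' b' := by
        rw [← hI']
        exact h
      exact lt_irrefl _ this.2
  have h3 : H (c, re K θ c) = (c, 0) := by
    rw [hHc]
    show (c, g (pt θ c (re K θ c))) = (c, 0)
    rw [k1 hfr]
  rw [← h3, H.left_inv k2]

end Pool.Agent.CRA
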