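import Pool.Agent.CRA.A1
import Pool.Agent.XA.E4
import Pool.Agent.XA.T4
import Pool.Agent.XA.B2
import Pool.Agent.CRN.A2

/-!
# [CRA] The X-ray of a body with analytic boundary and with holes determines the X-ray of the body
-/

set_option autoImplicit false
open MeasureTheory Set Filter Topology
open Pool.Agent.XA

namespace Pool.Agent.CRA

theorem pt_add_pi (θ c t : ℝ) : pt (θ + Real.pi) (-c) (-t) = pt θ c t := by
  ext
  · simp only [pt, Real.cos_add_pi, Real.sin_add_pi]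
    ring
  · simp only [pt, Real.cos_add_pi, Real.sin_add_pi]
    ring

theorem slice_add_pi (A : Set (ℝ × ℝ)) (θ c : ℝ) :
    {t : ℝ | pt (θ + Real.pi) (-c) t ∈ A} = Neg.neg ⁻¹' {t : ℝ | pt θ c t ∈ A} := by
  ext t
  show pt (θ + Real.pi) (-c) t ∈ A ↔ pt θ c (-t) ∈ A
  rw [← pt_add_pi θ c (-t), neg_neg]

theorem volume_slice_add_pi (A : Set (ℝ × ℝ)) (θ c : ℝ) :
    volume {t : ℝ | pt (θ + Real.pi) (-c) t ∈ A} = volume {t : ℝ | pt θ c t ∈ A} := by
  rw [slice_add_pi]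
  exact Measure.measure_preimage_neg volume _

theorem hs_two (K : Set (ℝ × ℝ)) (θ : ℝ) : hs K (θ + Real.pi + Real.pi) = hs K θ := by
  rw [add_assoc, ← two_mul]
  exact hs_add_two_pi K θ

/-- the length of a chord is an analytic function of the level -/
theorem len_eq {K : Set (ℝ × ℝ)} (hK : IsBody K) {θ c : ℝ} (h1 : -hs K (θ + Real.pi) < c)
    (h2 : c < hs K θ) : len K θ c = re K θ c + re K (θ + Real.pi) (-c) := by
  obtain ⟨a, b, hab, hS, -⟩ := chord_single hK h1 h2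
  have h3 : {t : ℝ | pt (θ + Real.pi) (-c) t ∈ K} = Icc (-b) (-a) := by
    rw [slice_add_pi, hS]
    ext t
    show -t ∈ Icc a b ↔ t ∈ Icc (-b) (-a)
    constructor
    · intro h
      constructor <;> linarith [h.1, h.2]
    · intro h
      constructor <;> linarith [h.1, h.2]
  rw [re_eq hab hS, re_eq (by linarith) h3]
  unfold len
  rw [hS, Real.volume_Icc, ENNReal.toReal_ofReal (by linarith)]
  ring

theorem len_analytic {K : Set (ℝ × ℝ)} (hK : IsBody K) (aK : AB K) (θ : ℝ) :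
    AnalyticOnNhd ℝ (len K θ) (Ioo (-hs K (θ + Real.pi)) (hs K θ)) := by
  intro c hc
  have h1 : AnalyticAt ℝ (re K θ) c := re_analytic hK aK hc.1 hc.2
  have h2 : AnalyticAt ℝ (re K (θ + Real.pi)) (-c) :=
    re_analytic hK aK (by rw [hs_two]; linarith [hc.2]) (by linarith [hc.1])
  have h3 : AnalyticAt ℝ (fun c : ℝ => re K (θ + Real.pi) (-c)) c :=
    AnalyticAt.fun_comp (f := fun c : ℝ => -c) h2 analyticAt_id.neg
  refine (h1.add h3).congr ?_
  filter_upwards [isOpen_Ioo.mem_nhds hc] with x hx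
  exact (len_eq hK hx.1 hx.2).symm

/-- **The X-ray of a body with analytic boundary with holes determines the X-ray of the body.** -/
theorem xray_outer {K L P Q : Set (ℝ × ℝ)} (hK : IsBody K) (hL : IsBody L) (aK : AB K) (aL : AB L)
    {θ : ℝ} (hP : ∃ p < hs K θ, ∀ y ∈ P, lv θ y ≤ p) (hQ : ∃ q < hs L θ, ∀ y ∈ Q, lv θ y ≤ q)
    (hP' : ∃ p < hs K (θ + Real.pi), ∀ y ∈ P, lv (θ + Real.pi) y ≤ p)
    (hQ' : ∃ q < hs L (θ + Real.pi), ∀ y ∈ Q, lv (θ + Real.pi) y ≤ q)
    (hX : ∀ c, volume {t : ℝ | pt θ c t ∈ K \ P} = volume {t : ℝ | pt θ c t ∈ L \ Q}) (c : ℝ) :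
    volume {t : ℝ | pt θ c t ∈ K} = volume {t : ℝ | pt θ c t ∈ L} := by
  have hX' : ∀ c, volume {t : ℝ | pt (θ + Real.pi) c t ∈ K \ P} =
      volume {t : ℝ | pt (θ + Real.pi) c t ∈ L \ Q} := by
    intro c
    have h := hX (-c)
    rw [← volume_slice_add_pi, ← volume_slice_add_pi (L \ Q), neg_neg] at h
    exact h
  have aux : ∀ ψ, (∃ p < hs K ψ, ∀ y ∈ P, lv ψ y ≤ p) → (∃ q < hs L ψ, ∀ y ∈ Q, lv ψ y ≤ q) →
      (∀ c, volume {t : ℝ | pt ψ c t ∈ K \ P} = volume {t : ℝ | pt ψ c t ∈ L \ Q}) →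
      hs K ψ = hs L ψ ∧ ∃ m < hs K ψ, ∀ c, m < c →
        volume {t : ℝ | pt ψ c t ∈ K} = volume {t : ℝ | pt ψ c t ∈ L} := by
    rintro ψ ⟨p, hp, hp'⟩ ⟨q, hq, hq'⟩ h
    have key : ∀ c, (∀ y ∈ P ∪ Q, lv ψ y < c) →
        volume {t : ℝ | pt ψ c t ∈ K} = volume {t : ℝ | pt ψ c t ∈ L} := fun c hc =>
      outer_slice (P := P) (Q := Q) (fun y hy => hc y (Or.inl hy)) (fun y hy => hc y (Or.inr hy))
        (h c)
    have h1 := min_le_left (hs K ψ - p) (hs L ψ - q)
    have h2 := min_le_right (hs K ψ - p) (hs L ψ - q)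
    have e : hs K ψ = hs L ψ := hs_eq_of_closed hK hL
      (ρ := min (hs K ψ - p) (hs L ψ - q)) (lt_min (by linarith) (by linarith))
      (fun y hy => by linarith [hp' y hy]) (fun y hy => by linarith [hq' y hy]) key
    refine ⟨e, max p q, max_lt hp (by rw [e]; exact hq), fun c hc => key c ?_⟩
    rintro y (hy | hy)
    · exact (hp' y hy).trans_lt ((le_max_left _ _).trans_lt hc)
    · exact (hq' y hy).trans_lt ((le_max_right _ _).trans_lt hc)
  obtain ⟨top, m, hm, hm'⟩ := aux θ hP hQ hX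
  obtain ⟨bot, n, hn, hn'⟩ := aux (θ + Real.pi) hP' hQ' hX'
  rcases lt_or_ge m c with hc | hc
  · exact hm' c hc
  rcases lt_or_ge n (-c) with hc2 | hc2
  · have h := hn' (-c) hc2
    rwa [volume_slice_add_pi, volume_slice_add_pi] at h
  have hcI : c ∈ Ioo (-hs K (θ + Real.pi)) (hs K θ) := ⟨by linarith, by linarith⟩
  have hA := len_analytic hK aK θ
  have hB := len_analytic hL aL θ
  rw [← top, ← bot] at hB
  set c1 := (max m (-hs K (θ + Real.pi)) + hs K θ) / 2 with hc1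
  have hw := width_pos hK θ
  have h3 : max m (-hs K (θ + Real.pi)) < hs K θ := max_lt hm (by linarith)
  have h4 := le_max_left m (-hs K (θ + Real.pi))
  have h5 := le_max_right m (-hs K (θ + Real.pi))
  have heq : len K θ =ᶠ[𝓝 c1] len L θ := by
    filter_upwards [eventually_gt_nhds (by linarith : m < c1)] with x hx
    unfold len
    rw [hm' x hx]
  have h6 := hA.eqOn_of_preconnected_of_eventuallyEq hB isPreconnected_Ioo
    (⟨by linarith, by linarith⟩ : c1 ∈ Ioo (-hs K (θ + Real.pi)) (hs K θ)) heq hcI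
  exact (ENNReal.toReal_eq_toReal_iff' (slice_lt_top hK.compact θ c).ne
    (slice_lt_top hL.compact θ c).ne).1 h6

end Pool.Agent.CRA
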