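import Pool.Agent.CRA.A2
import Pool.Agent.CRN.C1
import Pool.Agent.CRN.D1
import Pool.Agent.XA.V6
import Pool.Agent.XA.Z5

/-!
# [CRA] Every set of directions that determines convex bodies determines annuli with analytic outer boundary
-/

set_option autoImplicit false
open MeasureTheory Set Filter Topology
open Pool.Agent.XA Pool.Agent.CRN

namespace Pool.Agent.CRA

/-- the slices of the interior of a body at the extreme levels: the closed slices are limits -/
theorem top_le {K L : Set (ℝ × ℝ)} (hK : IsBody K) (hL : IsBody L) {θ m : ℝ}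
    (top : hs K θ = hs L θ) (hm : m < hs K θ)
    (h : ∀ c, m < c → c < hs K θ →
      volume {t : ℝ | pt θ c t ∈ K} = volume {t : ℝ | pt θ c t ∈ L}) :
    len K θ (hs K θ) ≤ len L θ (hs K θ) := by
  set H := hs K θ with hH
  obtain ⟨x, hx⟩ := hK.nonempty
  have hxK := interior_subset hx
  have hxH := lv_lt_hs hK.compact θ hx
  rw [← hH] at hxH
  by_contra hcon
  push Not at hcon
  set ε := len K θ H - len L θ H with hε
  have hε0 : 0 < ε := by linarith
  have hK0 : 0 ≤ len K θ H := ENNReal.toReal_nonneg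
  have hL0 : 0 ≤ len L θ H := ENNReal.toReal_nonneg
  -- the slices of `L` near the top
  obtain ⟨q, hq, eq⟩ := exists_lv_eq_hs hL.compact (hL.nonempty.mono interior_subset) θ
  rw [← top] at eq
  set S : Set ℝ := {t : ℝ | pt θ H t ∈ L} with hS
  have hSc : IsCompact S := by
    refine IsCompact.of_isClosed_subset (hL.compact.image (continuous_tg_right θ))
      (hL.compact.isClosed.preimage (continuous_pt_right θ H)) ?_
    intro t ht
    exact ⟨pt θ H t, ht, tg_pt θ H t⟩
  have hSne : S.Nonempty := ⟨tg θ q, by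
    show pt θ H (tg θ q) ∈ L
    rw [← eq, pt_lv_tg]
    exact hq⟩
  have hSconv : Convex ℝ S := by
    intro t₁ h₁ t₂ h₂ a b ha hb hab
    have h3 := hL.convex h₁ h₂ ha hb hab
    rw [c1_pt_comb θ H t₁ t₂ a b hab] at h3
    exact h3
  have hSI : S = Icc (sInf S) (sSup S) :=
    eq_Icc_of_connected_compact ⟨hSne, hSconv.isPreconnected⟩ hSc
  set a := sInf S
  set b := sSup S
  have hab : a ≤ b := by
    obtain ⟨t, ht⟩ := hSne
    rw [hSI] at ht
    exact ht.1.trans ht.2
  have hlenL : len L θ H = b - a := by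
    unfold len
    rw [← hS, hSI, Real.volume_Icc, ENNReal.toReal_ofReal (by linarith)]
  obtain ⟨c1, hc1, hc1'⟩ := exists_lt_of_compact (C := L ∩ {w | tg θ w ≤ a - ε / 4 ∨ b + ε / 4 ≤ tg θ w})
    (hL.compact.inter_right ((isClosed_le (continuous_tg_right θ) continuous_const).union
      (isClosed_le continuous_const (continuous_tg_right θ))))
    (continuous_lv_right θ) (T := H) (by
      rintro w ⟨hw, hw'⟩
      refine lt_of_le_of_ne ((lv_le_hs hL.compact θ hw).trans top.ge) fun hw2 => ?_
      have h3 : tg θ w ∈ S := by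
        show pt θ H (tg θ w) ∈ L
        rw [← hw2, pt_lv_tg]
        exact hw
      rw [hSI] at h3
      rcases hw' with h4 | h4 <;> linarith [h3.1, h3.2])
  -- the level
  set l := min (1 / 2) (ε / (4 * (len K θ H + 1))) with hl
  have hl0 : 0 < l := lt_min (by norm_num) (by positivity)
  have hl1 : l ≤ 1 / 2 := min_le_left _ _
  have hl2 : l * len K θ H ≤ ε / 4 := by
    have h3 : l ≤ ε / (4 * (len K θ H + 1)) := min_le_right _ _
    rw [le_div_iff₀ (by positivity)] at h3
    nlinarith
  set r := min l (min ((H - m) / (2 * (H - lv θ x))) ((H - c1) / (2 * (H - lv θ x)))) with hr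
  have hd : 0 < H - lv θ x := by linarith
  have hr0 : 0 < r := lt_min hl0 (lt_min (div_pos (by linarith) (by linarith))
    (div_pos (by linarith) (by linarith)))
  have hr1 : r ≤ l := min_le_left _ _
  have hr2 : r * (H - lv θ x) < H - m := by
    have h3 : r ≤ (H - m) / (2 * (H - lv θ x)) := (min_le_right _ _).trans (min_le_left _ _)
    rw [le_div_iff₀ (by linarith)] at h3
    linarith
  have hr3 : r * (H - lv θ x) < H - c1 := by
    have h3 : r ≤ (H - c1) / (2 * (H - lv θ x)) := (min_le_right _ _).trans (min_le_right _ _)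
    rw [le_div_iff₀ (by linarith)] at h3
    linarith
  set c := H - r * (H - lv θ x) with hc
  have hrd : 0 < r * (H - lv θ x) := mul_pos hr0 hd
  have e1 := h c (by linarith) (by linarith)
  -- the slice of `L` at `c`
  have h5 : len L θ c ≤ b - a + ε / 2 := by
    have h6 : {t : ℝ | pt θ c t ∈ L} ⊆ Icc (a - ε / 4) (b + ε / 4) := by
      intro t ht
      by_contra h7
      have h8 : pt θ c t ∈ L ∩ {w | tg θ w ≤ a - ε / 4 ∨ b + ε / 4 ≤ tg θ w} := by
        refine ⟨ht, ?_⟩
        show tg θ (pt θ c t) ≤ a - ε / 4 ∨ b + ε / 4 ≤ tg θ (pt θ c t)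
        rw [tg_pt]
        by_contra h9
        push Not at h9
        exact h7 ⟨h9.1.le, h9.2.le⟩
      have h9 := hc1' _ h8
      rw [lv_pt] at h9
      linarith
    have h7 := ENNReal.toReal_mono (by rw [Real.volume_Icc]; exact ENNReal.ofReal_ne_top)
      (measure_mono (μ := volume) h6)
    rw [Real.volume_Icc, ENNReal.toReal_ofReal (by linarith)] at h7
    unfold len
    linarith
  -- the slice of `K` at `c`
  have h6 : (1 - r) * len K θ H ≤ len K θ c := by
    have h7 : (fun t : ℝ => (1 - r)⁻¹ * (t - r * tg θ x)) ⁻¹' {t : ℝ | pt θ H t ∈ K} ⊆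
        {t : ℝ | pt θ c t ∈ K} := by
      intro t ht
      have h8 : pt θ H ((1 - r)⁻¹ * (t - r * tg θ x)) ∈ K := ht
      have h9 := hK.convex h8 hxK (by linarith : 0 ≤ 1 - r) hr0.le (by ring)
      have e : (1 - r) • pt θ H ((1 - r)⁻¹ * (t - r * tg θ x)) + r • x = pt θ c t := by
        have e3 : x = pt θ (lv θ x) (tg θ x) := (pt_lv_tg θ x).symm
        have hne : (1 - r) ≠ 0 := by linarith
        conv_lhs => rw [e3]
        ext
        · simp only [pt, Prod.fst_add, Prod.smul_fst, smul_eq_mul, hc]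
          simp only [tg_pt, ← pt.eq_1]
          field_simp
          ring
        · simp only [pt, Prod.snd_add, Prod.smul_snd, smul_eq_mul, hc]
          simp only [tg_pt, ← pt.eq_1]
          field_simp
          ring
      rw [e] at h9
      exact h9
    have h8 : volume ((fun t : ℝ => (1 - r)⁻¹ * (t - r * tg θ x)) ⁻¹' {t : ℝ | pt θ H t ∈ K}) =
        ENNReal.ofReal (1 - r) * volume {t : ℝ | pt θ H t ∈ K} := by
      have e : (fun t : ℝ => (1 - r)⁻¹ * (t - r * tg θ x)) ⁻¹' {t : ℝ | pt θ H t ∈ K} =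
          (fun t : ℝ => t + (-(r * tg θ x))) ⁻¹' ((fun t : ℝ => (1 - r)⁻¹ * t) ⁻¹'
            {t : ℝ | pt θ H t ∈ K}) := rfl
      rw [e, measure_preimage_add_right, Real.volume_preimage_mul_left (inv_ne_zero (by linarith)),
        inv_inv, abs_of_pos (by linarith : 0 < 1 - r)]
    have h9 := ENNReal.toReal_mono (slice_lt_top hK.compact θ c).ne (measure_mono (μ := volume) h7)
    rw [h8, ENNReal.toReal_mul, ENNReal.toReal_ofReal (by linarith)] at h9
    exact h9
  have h7 : len K θ c = len L θ c := by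
    unfold len
    rw [e1]
  have h8 : r * len K θ H ≤ l * len K θ H := mul_le_mul_of_nonneg_right hr1 hK0
  linarith

theorem closed_of_int_aux {P Q : Set (ℝ × ℝ)} (hP : IsBody P) (hQ : IsBody Q) {θ : ℝ}
    (h : ∀ c, volume {t : ℝ | pt θ c t ∈ interior P} = volume {t : ℝ | pt θ c t ∈ interior Q}) :
    hs P θ = hs Q θ := by
  refine hs_eq_of_int hP hQ (c := max (hs P θ) (hs Q θ) - 1) (by linarith) fun c' _ => h c'

/-- equal slices of the interiors give equal slices of the bodies -/
theorem closed_of_int {P Q : Set (ℝ × ℝ)} (hP : IsBody P) (hQ : IsBody Q) {θ : ℝ}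
    (h : ∀ c, volume {t : ℝ | pt θ c t ∈ interior P} = volume {t : ℝ | pt θ c t ∈ interior Q})
    (c : ℝ) : volume {t : ℝ | pt θ c t ∈ P} = volume {t : ℝ | pt θ c t ∈ Q} := by
  have h' : ∀ c, volume {t : ℝ | pt (θ + Real.pi) c t ∈ interior P} =
      volume {t : ℝ | pt (θ + Real.pi) c t ∈ interior Q} := by
    intro c
    have h1 := h (-c)
    rw [← volume_slice_add_pi, ← volume_slice_add_pi (interior Q), neg_neg] at h1
    exact h1
  have top := closed_of_int_aux hP hQ h
  have bot := closed_of_int_aux hP hQ h'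
  have mid : ∀ c, -hs P (θ + Real.pi) < c → c < hs P θ →
      volume {t : ℝ | pt θ c t ∈ P} = volume {t : ℝ | pt θ c t ∈ Q} := fun c h1 h2 => by
    rw [← vol_interior_eq hP h1 h2, ← vol_interior_eq hQ (by rwa [← bot]) (by rwa [← top]), h]
  have w := width_pos hP θ
  have eqtop : ∀ {A B : Set (ℝ × ℝ)} {ψ m : ℝ}, IsBody A → IsBody B → hs A ψ = hs B ψ →
      m < hs A ψ → (∀ c, m < c → c < hs A ψ →
        volume {t : ℝ | pt ψ c t ∈ A} = volume {t : ℝ | pt ψ c t ∈ B}) →
      volume {t : ℝ | pt ψ (hs A ψ) t ∈ A} = volume {t : ℝ | pt ψ (hs A ψ) t ∈ B} := by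
    intro A B ψ m hA hB e hm hAB
    have k1 := top_le hA hB e hm hAB
    have k2 := top_le hB hA e.symm (by rwa [← e]) (fun c k3 k4 => (hAB c k3 (by rwa [e])).symm)
    rw [← e] at k2
    exact (ENNReal.toReal_eq_toReal_iff' (slice_lt_top hA.compact ψ _).ne
      (slice_lt_top hB.compact ψ _).ne).1 (le_antisymm k1 k2)
  have empty : ∀ {A : Set (ℝ × ℝ)} {ψ c : ℝ}, IsBody A → hs A ψ < c →
      volume {t : ℝ | pt ψ c t ∈ A} = 0 := by
    intro A ψ c hA hc
    have : {t : ℝ | pt ψ c t ∈ A} = ∅ := by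
      ext t
      simp only [mem_ofPred_eq, mem_empty_iff_false, iff_false]
      intro ht
      have := lv_le_hs hA.compact ψ ht
      rw [lv_pt] at this
      linarith
    rw [this, measure_empty]
  rcases lt_trichotomy c (hs P θ) with h1 | h1 | h1
  · rcases lt_trichotomy (-c) (hs P (θ + Real.pi)) with h2 | h2 | h2
    · exact mid c (by linarith) h1
    · rw [← volume_slice_add_pi, ← volume_slice_add_pi Q, h2]
      refine eqtop hP hQ bot (m := -hs P θ) (by linarith) fun c' k1 k2 => ?_
      have := mid (-c') (by linarith) (by linarith)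
      rw [← volume_slice_add_pi, ← volume_slice_add_pi Q, neg_neg] at this
      exact this
    · rw [← volume_slice_add_pi, ← volume_slice_add_pi Q, empty hP h2,
        empty hQ (by rwa [← bot])]
  · rw [h1]
    exact eqtop hP hQ top (m := -hs P (θ + Real.pi)) (by linarith) mid
  · rw [empty hP h1, empty hQ (by rwa [← top])]

/-! ### the Euclidean plane -/

/-- the boundary of `K` is real analytic: near each boundary point `K` is `{g ≤ 0}` for a real analytic function `g`
with nonzero derivative -/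
def AnalyticBoundary (K : Set (EuclideanSpace ℝ (Fin 2))) : Prop :=
  ∀ b ∈ frontier K, ∃ g : EuclideanSpace ℝ (Fin 2) → ℝ, AnalyticAt ℝ g b ∧ fderiv ℝ g b ≠ 0 ∧
    ∀ᶠ x in 𝓝 b, (x ∈ K ↔ g x ≤ 0)

/-- the X-rays in the directions of `U` determine convex bodies among convex bodies -/
def DeterminesBodies (U : Set (EuclideanSpace ℝ (Fin 2))) : Prop :=
  ∀ K L : Set (EuclideanSpace ℝ (Fin 2)), IsCompact K → Convex ℝ K → (interior K).Nonempty →
    IsCompact L → Convex ℝ L → (interior L).Nonempty → (∀ u ∈ U, SameXray K L u) → K = L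

/-- `toE` as a continuous linear map -/
noncomputable def toEL : ℝ × ℝ →L[ℝ] EuclideanSpace ℝ (Fin 2) :=
  LinearMap.toContinuousLinearMap (IsLinearMap.mk' toE t1_linear)

theorem toEL_apply (p : ℝ × ℝ) : toEL p = toE p := rfl

theorem AnalyticBoundary.ab {K : Set (EuclideanSpace ℝ (Fin 2))} (h : AnalyticBoundary K) :
    AB (toE ⁻¹' K) := by
  intro b hb
  have hb' : toE b ∈ frontier K := by
    have h1 : toE ⁻¹' frontier K = frontier (toE ⁻¹' K) := t1_hom.preimage_frontier K
    rw [← h1] at hb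
    exact hb
  obtain ⟨g, hg, hg', hloc⟩ := h _ hb'
  refine ⟨fun p => g (toEL p), ?_, ?_, ?_⟩
  · have h3 : AnalyticAt ℝ g (toEL b) := hg
    exact AnalyticAt.fun_comp h3 (toEL.analyticAt b)
  · have h3 : HasFDerivAt g (fderiv ℝ g (toE b)) (toEL b) := hg.differentiableAt.hasFDerivAt
    have h4 : HasFDerivAt (fun p => g (toEL p)) ((fderiv ℝ g (toE b)).comp toEL) b :=
      h3.comp b toEL.hasFDerivAt
    rw [h4.fderiv]
    intro h5
    apply hg'
    ext x
    obtain ⟨y, rfl⟩ := toE_surjective x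
    have h6 := congrArg (fun T : ℝ × ℝ →L[ℝ] ℝ => T y) h5
    exact h6
  · exact (toEL.continuous.tendsto b).eventually hloc

/-- the lines parallel to `u` in coordinates -/
theorem exists_angle {u : EuclideanSpace ℝ (Fin 2)} (hu : u ≠ 0) :
    ∃ θ : ℝ, ∀ A B : Set (EuclideanSpace ℝ (Fin 2)), SameXray A B u ↔
      ∀ c, volume {t : ℝ | pt θ c t ∈ toE ⁻¹' A} = volume {t : ℝ | pt θ c t ∈ toE ⁻¹' B} := by
  set z : ℂ := ⟨u 1, -u 0⟩ with hz
  have hz0 : z ≠ 0 := by
    intro h
    apply hu
    ext i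
    have h1 := congrArg Complex.re h
    have h2 := congrArg Complex.im h
    simp only [hz, Complex.zero_re, Complex.zero_im] at h1 h2
    fin_cases i
    · show u 0 = 0
      linarith
    · show u 1 = 0
      exact h1
  have hr : 0 < ‖z‖ := norm_pos_iff.2 hz0
  set r := ‖z‖ with hr'
  refine ⟨Complex.arg z, fun A B => ?_⟩
  set θ := Complex.arg z
  have e1 : r * Real.cos θ = u 1 := Complex.norm_mul_cos_arg z
  have e2 : r * Real.sin θ = -u 0 := Complex.norm_mul_sin_arg z
  have key : ∀ (C : Set (EuclideanSpace ℝ (Fin 2))) (c t₀ : ℝ),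
      volume {t : ℝ | toE (pt θ c t₀) + t • u ∈ C} =
        ENNReal.ofReal |r⁻¹| * volume {t : ℝ | pt θ c t ∈ toE ⁻¹' C} := by
    intro C c t₀
    have e : {t : ℝ | toE (pt θ c t₀) + t • u ∈ C} =
        (fun t : ℝ => r * t) ⁻¹' ((fun t : ℝ => t + t₀) ⁻¹' {t : ℝ | pt θ c t ∈ toE ⁻¹' C}) := by
      ext t
      show toE (pt θ c t₀) + t • u ∈ C ↔ toE (pt θ c (r * t + t₀)) ∈ C
      have e3 : toE (pt θ c t₀) + t • u = toE (pt θ c (r * t + t₀)) := by
        ext i
        fin_cases i
        · show toE (pt θ c t₀) 0 + t * u 0 = toE (pt θ c (r * t + t₀)) 0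
          rw [t1_toE_zero, t1_toE_zero]
          simp only [pt]
          linear_combination t * e2
        · show toE (pt θ c t₀) 1 + t * u 1 = toE (pt θ c (r * t + t₀)) 1
          rw [t1_toE_one, t1_toE_one]
          simp only [pt]
          linear_combination -t * e1
      rw [e3]
    rw [e, Real.volume_preimage_mul_left hr.ne', measure_preimage_add_right]
  have hne : ENNReal.ofReal |r⁻¹| ≠ 0 := by
    have : 0 < |r⁻¹| := abs_pos.2 (inv_ne_zero hr.ne')
    exact (ENNReal.ofReal_pos.2 this).ne'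
  constructor
  · intro h c
    have h1 := h (toE (pt θ c 0))
    rw [key, key] at h1
    exact (ENNReal.mul_right_inj hne ENNReal.ofReal_ne_top).1 h1
  · intro h x
    obtain ⟨y, rfl⟩ := toE_surjective x
    rw [← pt_lv_tg θ y, key, key, h]

/-- holes with closure in the interior are below the extreme levels -/
theorem hole_le {K P : Set (ℝ × ℝ)} (hK : IsBody K) (hP : closure P ⊆ interior K) (θ : ℝ) :
    ∃ p < hs K θ, ∀ y ∈ P, lv θ y ≤ p := by
  obtain ⟨p, hp, h⟩ := exists_lt_of_compact (C := closure P)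
    (hK.compact.of_isClosed_subset isClosed_closure (hP.trans interior_subset))
    (continuous_lv_right θ) fun w hw => lv_lt_hs hK.compact θ (hP hw)
  exact ⟨p, hp, fun y hy => h y (subset_closure hy)⟩

/-- **Bodies with analytic boundary and with arbitrary holes.** -/
theorem outer_analytic {U : Set (EuclideanSpace ℝ (Fin 2))} (hU0 : ∀ u ∈ U, u ≠ 0)
    (hU : DeterminesBodies U) {K L P Q : Set (EuclideanSpace ℝ (Fin 2))}
    (k1 : IsCompact K) (k2 : Convex ℝ K) (k3 : (interior K).Nonempty)
    (l1 : IsCompact L) (l2 : Convex ℝ L) (l3 : (interior L).Nonempty)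
    (aK : AnalyticBoundary K) (aL : AnalyticBoundary L)
    (hP : closure P ⊆ interior K) (hQ : closure Q ⊆ interior L)
    (hX : ∀ u ∈ U, SameXray (K \ P) (L \ Q) u) : K = L := by
  have bK := IsBody_toE k1 k2 k3
  have bL := IsBody_toE l1 l2 l3
  have cP : closure (toE ⁻¹' P) ⊆ interior (toE ⁻¹' K) := by
    have h1 : toE ⁻¹' closure P = closure (toE ⁻¹' P) := t1_hom.preimage_closure P
    rw [interior_toE, ← h1]
    exact preimage_mono hP
  have cQ : closure (toE ⁻¹' Q) ⊆ interior (toE ⁻¹' L) := by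
    have h1 : toE ⁻¹' closure Q = closure (toE ⁻¹' Q) := t1_hom.preimage_closure Q
    rw [interior_toE, ← h1]
    exact preimage_mono hQ
  refine hU K L k1 k2 k3 l1 l2 l3 fun u hu => ?_
  obtain ⟨θ, hθ⟩ := exists_angle (hU0 u hu)
  rw [hθ]
  exact xray_outer bK bL aK.ab aL.ab (hole_le bK cP θ) (hole_le bL cQ θ)
    (hole_le bK cP (θ + Real.pi)) (hole_le bL cQ (θ + Real.pi)) ((hθ _ _).1 (hX u hu))

/-- **Annuli with analytic outer boundary.** -/
theorem annuli_analytic {U : Set (EuclideanSpace ℝ (Fin 2))} (hU0 : ∀ u ∈ U, u ≠ 0)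
    (hU : DeterminesBodies U) {K L P Q : Set (EuclideanSpace ℝ (Fin 2))}
    (hA : Annulus K P) (hB : Annulus L Q) (aK : AnalyticBoundary K) (aL : AnalyticBoundary L)
    (hX : ∀ u ∈ U, SameXray (K \ interior P) (L \ interior Q) u) : K = L ∧ P = Q := by
  have k3 : (interior K).Nonempty := by
    obtain ⟨x, hx⟩ := hA.nonempty'
    exact ⟨x, hA.subset (interior_subset hx)⟩
  have l3 : (interior L).Nonempty := by
    obtain ⟨x, hx⟩ := hB.nonempty'
    exact ⟨x, hB.subset (interior_subset hx)⟩
  have h1 : K = L := by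
    refine outer_analytic hU0 hU hA.compact hA.convex k3 hB.compact hB.convex l3 aK aL ?_ ?_ hX
    · exact (closure_minimal interior_subset hA.compact'.isClosed).trans hA.subset
    · exact (closure_minimal interior_subset hB.compact'.isClosed).trans hB.subset
  refine ⟨h1, ?_⟩
  subst h1
  refine hU P Q hA.compact' hA.convex' hA.nonempty' hB.compact' hB.convex' hB.nonempty'
    fun u hu => ?_
  obtain ⟨θ, hθ⟩ := exists_angle (hU0 u hu)
  rw [hθ]
  refine closed_of_int hA.bP hB.bP fun c => ?_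
  refine vol_inner hA.bK hA.bP hB.bK hB.bP hA.sub hB.sub ?_ rfl
  have h2 := (hθ _ _).1 (hX u hu) c
  rw [interior_toE, interior_toE, ← Set.preimage_sdiff, ← Set.preimage_sdiff]
  exact h2

/-- there are finite sets that determine convex bodies (known: Gardner-McMullen) -/
theorem exists_determining : ∃ U : Finset (EuclideanSpace ℝ (Fin 2)), (∀ u ∈ U, u ≠ 0) ∧
    DeterminesBodies (U : Set (EuclideanSpace ℝ (Fin 2))) := by
  obtain ⟨U, hU0, hU1, -⟩ := mainU 1 one_pos
  refine ⟨U, hU0, fun K L k1 k2 k3 l1 l2 l3 h => ?_⟩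
  refine hU1 K L ∅ ∅ k1 k2 k3 l1 l2 l3 (fun x hx => absurd hx (notMem_empty x))
    (fun x hx => absurd hx (notMem_empty x)) fun u hu x => ?_
  rw [Set.sdiff_empty, Set.sdiff_empty]
  exact h u hu x

end Pool.Agent.CRA
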